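import Mathlib

namespace Pool.Agent.Results.MP_025f5d_nt.Counter

open Finset

/-- The Pell numbers. -/
def pell : ℕ → ℤ
  | 0 => 0
  | 1 => 1
  | n + 2 => 2 * pell (n + 1) + pell n

/-- The sum `S_2(p)`. -/
def S2 (p : ℕ) : ℚ :=
  ∑ k ∈ range p, (k : ℚ) * (pell k : ℚ) / (-8) ^ k * ((2 * k).choose k : ℚ) ^ 2

/-- `u ≡ v (mod p^m)`: the rational `(u - v) / p^m` has denominator prime to `p`. -/
def Cong (p m : ℕ) (u v : ℚ) : Prop := Nat.Coprime ((u - v) / (p : ℚ) ^ m).den p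

instance (p m : ℕ) (u v : ℚ) : Decidable (Cong p m u v) := by unfold Cong; infer_instance

theorem result : ∀ p ∈ [11, 17], Nat.Prime p ∧
    (∃ x y : ℤ, (p : ℤ) = x ^ 2 + 2 * y ^ 2 ∧ (x % 8 = 1 ∨ x % 8 = 3)) ∧
    ∀ x y : ℤ, (p : ℤ) = x ^ 2 + 2 * y ^ 2 → (x % 8 = 1 ∨ x % 8 = 3) →
      ¬ Cong p 2 (S2 p)
        ((-1 : ℚ) ^ ((x + 1) / 2) / 2 * ((x : ℚ) + (p : ℚ) / (2 * (x : ℚ)))) := by
  intro p hp
  simp only [List.mem_cons, List.not_mem_nil, or_false] at hp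
  rcases hp with rfl | rfl
  · refine ⟨by norm_num, ⟨3, 1, by norm_num, by norm_num⟩, fun x y h hx => ?_⟩
    push_cast at h
    have hx3 : x = 3 := by
      have h1 : x ≤ 4 := by nlinarith [sq_nonneg y, sq_nonneg (x - 5)]
      have h2 : -4 ≤ x := by nlinarith [sq_nonneg y, sq_nonneg (x + 5)]
      have h3 : y ≤ 2 := by nlinarith [sq_nonneg x, sq_nonneg (y - 3)]
      have h4 : -2 ≤ y := by nlinarith [sq_nonneg x, sq_nonneg (y + 3)]
      interval_cases x <;> interval_cases y <;> simp_all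
    subst hx3
    decide +kernel
  · refine ⟨by norm_num, ⟨3, 2, by norm_num, by norm_num⟩, fun x y h hx => ?_⟩
    push_cast at h
    have hx3 : x = 3 := by
      have h1 : x ≤ 4 := by nlinarith [sq_nonneg y, sq_nonneg (x - 5)]
      have h2 : -4 ≤ x := by nlinarith [sq_nonneg y, sq_nonneg (x + 5)]
      have h3 : y ≤ 2 := by nlinarith [sq_nonneg x, sq_nonneg (y - 3)]
      have h4 : -2 ≤ y := by nlinarith [sq_nonneg x, sq_nonneg (y + 3)]
      interval_cases x <;> interval_cases y <;> simp_all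
    subst hx3
    decide +kernel

end Pool.Agent.Results.MP_025f5d_nt.Counter
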